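import Mathlib

namespace Pool.Agent.Results.MP_5909b9_co.Counter

open Finset MvPolynomial

/-- The operator `ω`: `x = X 0`, `λ = X 1` are scalars and `μ^r ↦ μ^r / r!` for `μ = X 2`. -/
noncomputable def omegaOp (p : MvPolynomial (Fin 3) ℚ) : MvPolynomial (Fin 3) ℚ :=
  ∑ m ∈ p.support, monomial m (coeff m p / (Nat.factorial (m 2) : ℚ))

open Classical in
/-- `Q(G) = ω per(x I + λ A + μ J)`. -/
noncomputable def Q {n : ℕ} (G : SimpleGraph (Fin n)) : MvPolynomial (Fin 3) ℚ :=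
  omegaOp (Matrix.permanent ((X 0 : MvPolynomial (Fin 3) ℚ) • (1 : Matrix (Fin n) (Fin n) _) +
    (X 1 : MvPolynomial (Fin 3) ℚ) • G.adjMatrix _ +
    (X 2 : MvPolynomial (Fin 3) ℚ) • Matrix.of (fun _ _ => 1)))

def rp : (n : ℕ) → (Fin n → Fin n → ℕ) → ℕ
  | 0, _ => 1
  | n + 1, A => ((List.finRange (n + 1)).map
      (fun p => A p 0 * rp n (fun i j => A (Equiv.swap 0 p i.succ) j.succ))).sum

lemma rp_eq (n : ℕ) (A : Fin n → Fin n → ℕ) :
    ∑ σ : Equiv.Perm (Fin n), ∏ i, A (σ i) i = rp n A := by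
  induction n with
  | zero => simp [rp]
  | succ n ih =>
    rw [rp, ← Fin.sum_univ_def, Finset.univ_perm_fin_succ, ← Finset.univ_product_univ]
    simp only [Finset.sum_map, Equiv.toEmbedding_apply, Finset.sum_product]
    refine Finset.sum_congr rfl fun p _ => ?_
    rw [← ih, mul_sum]
    refine Finset.sum_congr rfl fun σ _ => ?_
    simp only [Fin.prod_univ_succ, Equiv.Perm.decomposeFin_symm_apply_zero,
      Equiv.Perm.decomposeFin_symm_apply_succ]

lemma digits (B N : ℕ) (f g : ℕ → ℕ) (hf : ∀ k, f k < B) (hg : ∀ k, g k < B)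
    (h : ∑ k ∈ range N, f k * B ^ k = ∑ k ∈ range N, g k * B ^ k) : ∀ k < N, f k = g k := by
  induction N generalizing f g with
  | zero => simp
  | succ N ih =>
    rw [sum_range_succ', sum_range_succ'] at h
    simp only [pow_succ, ← mul_assoc, ← sum_mul, pow_zero, mul_one] at h
    have h0 : f 0 = g 0 := by
      have := congrArg (· % B) h
      simp only [Nat.mul_add_mod_self_right, Nat.mod_eq_of_lt (hf 0), Nat.mod_eq_of_lt (hg 0)] at this
      exact this
    rw [h0, add_left_inj] at h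
    have h1 := ih (fun k => f (k + 1)) (fun k => g (k + 1)) (fun k => hf _) (fun k => hg _)
      (Nat.eq_of_mul_eq_mul_right (lt_of_le_of_lt (Nat.zero_le _) (hf 0)) h)
    intro k hk
    rcases k with _ | k
    exacts [h0, h1 k (by omega)]

def wt (t : Fin 3) : ℕ := if t = 0 then 9 else if t = 1 then 1 else 0

lemma prod3 {R ι : Type} [CommSemiring R] [DecidableEq ι] (e : Fin 3 → R) (t : ι → Fin 3)
    (S : Finset ι) : ∃ a b c, a + b + c = S.card ∧ ∑ i ∈ S, wt (t i) = 9 * a + b ∧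
      ∏ i ∈ S, e (t i) = e 0 ^ a * e 1 ^ b * e 2 ^ c := by
  induction S using Finset.induction with
  | empty => exact ⟨0, 0, 0, by simp⟩
  | insert i S hi ih =>
    obtain ⟨a, b, c, h1, h2, h3⟩ := ih
    rw [card_insert_of_notMem hi, sum_insert hi, prod_insert hi, h2, h3]
    have : t i = 0 ∨ t i = 1 ∨ t i = 2 := by generalize t i = x; revert x; decide
    rcases this with h | h | h <;> rw [h]
    · exact ⟨a + 1, b, c, by omega, by simp [wt]; omega, by ring⟩
    · exact ⟨a, b + 1, c, by omega, by simp [wt]; omega, by ring⟩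
    · exact ⟨a, b, c + 1, by omega, by simp [wt], by ring⟩

def st (T : Fin 8 → Fin 8 → Fin 3) (σ : Equiv.Perm (Fin 8)) : ℕ := ∑ i, wt (T (σ i) i)

lemma fibs {R : Type} [CommSemiring R] (T : Fin 8 → Fin 8 → Fin 3) (φ : ℕ → R) :
    ∑ σ, φ (st T σ) = ∑ k ∈ range 81, ((univ.filter (fun σ => st T σ = k)).card : R) * φ k := by
  rw [← sum_fiberwise_of_maps_to (s := univ) (t := range 81) (g := st T) (fun σ _ => by
    obtain ⟨a, b, c, h1, h2, -⟩ := prod3 (fun _ => (1 : ℕ)) (fun i => T (σ i) i) univ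
    rw [card_univ, Fintype.card_fin] at h1
    rw [mem_range, st, h2]; omega)]
  apply sum_congr rfl
  intro k _
  rw [sum_congr rfl (g := fun _ => φ k) (fun σ hσ => by rw [(mem_filter.1 hσ).2]), sum_const,
    nsmul_eq_mul]

lemma transfer {R : Type} [CommSemiring R] (e : Fin 3 → R) (T T' : Fin 8 → Fin 8 → Fin 3)
    (h : rp 8 (fun i j => 65536 ^ wt (T i j)) = rp 8 (fun i j => 65536 ^ wt (T' i j))) :
    ∑ σ : Equiv.Perm (Fin 8), ∏ i, e (T (σ i) i) = ∑ σ : Equiv.Perm (Fin 8), ∏ i, e (T' (σ i) i) := by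
  have k1 : ∀ (T : Fin 8 → Fin 8 → Fin 3) (σ : Equiv.Perm (Fin 8)), ∏ i, e (T (σ i) i) =
      (fun s => e 0 ^ (s / 9) * e 1 ^ (s % 9) * e 2 ^ (8 - s / 9 - s % 9)) (st T σ) := by
    intro T σ
    obtain ⟨a, b, c, h1, h2, h3⟩ := prod3 e (fun i => T (σ i) i) univ
    rw [card_univ, Fintype.card_fin] at h1
    rw [h3, st, h2]
    beta_reduce
    rw [show (9 * a + b) / 9 = a by omega, show (9 * a + b) % 9 = b by omega,
      show 8 - a - b = c by omega]
  rw [← rp_eq, ← rp_eq] at h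
  simp only [prod_pow_eq_pow_sum] at h
  have h2 : ∑ σ, 65536 ^ st T σ = ∑ σ, 65536 ^ st T' σ := h
  rw [fibs T (fun k => 65536 ^ k), fibs T' (fun k => 65536 ^ k)] at h2
  have hb : ∀ (T : Fin 8 → Fin 8 → Fin 3) k, (univ.filter (fun σ => st T σ = k)).card < 65536 :=
    fun T k => lt_of_le_of_lt (card_le_univ _) (by rw [Fintype.card_perm, Fintype.card_fin]; decide)
  have h3 := digits 65536 81 _ _ (hb T) (hb T') h2
  rw [sum_congr rfl (fun σ _ => k1 T σ), sum_congr rfl (fun σ _ => k1 T' σ)]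
  refine (fibs T (fun s => e 0 ^ (s / 9) * e 1 ^ (s % 9) * e 2 ^ (8 - s / 9 - s % 9))).trans
    (Eq.trans ?_ (fibs T' (fun s => e 0 ^ (s / 9) * e 1 ^ (s % 9) * e 2 ^ (8 - s / 9 - s % 9))).symm)
  exact sum_congr rfl (fun k hk => by rw [h3 k (mem_range.1 hk)])

def gr (l : List (Fin 8 × Fin 8)) : SimpleGraph (Fin 8) where
  Adj i j := i ≠ j ∧ ((i, j) ∈ l ∨ (j, i) ∈ l)
  symm := ⟨fun _ _ h => ⟨h.1.symm, h.2.symm⟩⟩
  loopless := ⟨fun _ h => h.1 rfl⟩

instance (l : List (Fin 8 × Fin 8)) : DecidableRel (gr l).Adj :=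
  fun i j => inferInstanceAs (Decidable (i ≠ j ∧ ((i, j) ∈ l ∨ (j, i) ∈ l)))

def ty (l : List (Fin 8 × Fin 8)) (i j : Fin 8) : Fin 3 :=
  if i = j then 0 else if (gr l).Adj i j then 1 else 2

lemma Q_eq (l : List (Fin 8 × Fin 8)) : Q (gr l) = omegaOp (∑ σ : Equiv.Perm (Fin 8), ∏ i,
    (![X 0 + X 2, X 1 + X 2, X 2] : Fin 3 → MvPolynomial (Fin 3) ℚ) (ty l (σ i) i)) := by
  unfold Q Matrix.permanent
  refine congrArg omegaOp (sum_congr rfl fun σ _ => prod_congr rfl fun i _ => ?_)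
  generalize σ i = j
  by_cases h : j = i
  · subst h
    simp [ty]
  · by_cases h2 : (gr l).Adj j i <;> simp [ty, h, h2]

def l1 : List (Fin 8 × Fin 8) := [(0, 1), (0, 2), (0, 3), (0, 4), (0, 5), (1, 2), (1, 3), (1, 5),
  (2, 4), (2, 6), (3, 4), (4, 6), (4, 7), (5, 7)]

def l2 : List (Fin 8 × Fin 8) := [(0, 1), (0, 2), (0, 3), (0, 4), (1, 2), (1, 3), (1, 5), (1, 6),
  (2, 4), (2, 5), (2, 6), (3, 4), (3, 7), (5, 7)]

def tb (c : ℕ) (i j : Fin 8) : ℕ := 65536 ^ (c / 16 ^ (8 * i.val + j.val) % 16)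

lemma num : rp 8 (tb 65163086597039816067862095708953897728794454110662480632710967141147320848665) = rp 8 (tb 65161430177916175056847409204809169398060363796165823607118257999406413451545) := by decide +kernel

theorem result : ∃ G H : SimpleGraph (Fin 8), Q G = Q H ∧ IsEmpty (G ≃g H) := by
  refine ⟨gr l1, gr l2, ?_, ⟨fun f => ?_⟩⟩
  · have e1 : (fun i j => 65536 ^ wt (ty l1 i j)) = tb 65163086597039816067862095708953897728794454110662480632710967141147320848665 := by decide +kernel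
    have e2 : (fun i j => 65536 ^ wt (ty l2 i j)) = tb 65161430177916175056847409204809169398060363796165823607118257999406413451545 := by decide +kernel
    rw [Q_eq, Q_eq, transfer _ (ty l1) (ty l2) (by rw [e1, e2]; exact num)]
  · have key : ∀ a b c : Fin 8, a ≠ b → (gr l2).degree a = 2 → (gr l2).degree b = 2 →
        (gr l2).Adj c a → ¬ (gr l2).Adj c b := by decide +kernel
    refine key (f 6) (f 7) (f 4) (fun e => absurd (f.injective e) (by decide)) ?_ ?_
      (f.map_adj_iff.2 (by decide)) (f.map_adj_iff.2 (by decide))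
    · rw [f.degree_eq]; decide +kernel
    · rw [f.degree_eq]; decide +kernel

end Pool.Agent.Results.MP_5909b9_co.Counter
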